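import Pool.Agent.H27.HP.T
import Pool.Agent.H38.HB.DIF
import Pool.Agent.H54.HB.NQ

/-! Row DIP of `hbp_modules`: the difference of two centred extremals for `p ≥ 2`. -/

set_option autoImplicit false

namespace Pool.Agent.H79.HP
open MeasureTheory Set Filter Topology Pool.Agent.H80.HS Pool.Agent.H93.HQ Pool.Agent.H27.HB
open Pool.Agent.H27.HP
open scoped ContDiff ENNReal

theorem pf_DIP (hELQ : T_ELQ) (hCLA : T_CLA) (hSOB : T_SOB) (hMNP : T_MNP) (hBQE : T_BQE) :
    T_DIP := by
  intro n hn p S hp2 hpn hS u v g h hu hv hu0 hv0 hcu hcv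
  have hp1 : (1 : ℝ) < p := by linarith
  have hp0 : (0 : ℝ) < p := by linarith
  set q : ℝ := ps n p with hqdef
  have hq : 2 < q := by
    have h1 : (0 : ℝ) < 2 * n + 2 - p := by linarith
    have h2 : p < q := by
      rw [hqdef]
      unfold ps
      rw [lt_div_iff₀ h1]
      nlinarith
    linarith
  have hq0 : (0 : ℝ) < q := by linarith
  have hug : MemLp g (ENNReal.ofReal p) := hu.1.2.1
  have hvh : MemLp h (ENNReal.ofReal p) := hv.1.2.1
  have huu : MemLp u (ENNReal.ofReal q) := hu.1.1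
  have hvv : MemLp v (ENNReal.ofReal q) := hv.1.1
  -- the difference
  have hw := hCLA n hn p hp1 hpn u v g h 1 (-1) hu.1 hv.1
  have hwe : ∀ z, (1 : ℝ) • g z + (-1 : ℝ) • h z = g z - h z := fun z => by
    rw [one_smul, neg_smul, one_smul, sub_eq_add_neg]
  have hfe : ∀ z, (1 : ℝ) * u z + (-1 : ℝ) * v z = u z - v z := fun z => by ring
  simp only [hwe, hfe] at hw
  -- integrability of the weighted difference
  have hA0 : Integrable (fun z => (‖g z‖ + ‖h z‖) ^ p) := by
    have h1 := (hug.norm.add hvh.norm).integrable_norm_rpow (by simpa using hp0)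
      ENNReal.ofReal_ne_top
    rw [ENNReal.toReal_ofReal hp0.le] at h1
    refine h1.congr (Eventually.of_forall fun z => ?_)
    show ‖‖g z‖ + ‖h z‖‖ ^ p = _
    rw [Real.norm_of_nonneg (by positivity)]
  have hA : Integrable (fun z => (‖g z‖ + ‖h z‖) ^ (p - 2) * ‖g z - h z‖ ^ 2) := by
    refine hA0.mono' ?_ (Eventually.of_forall fun z => ?_)
    · exact ((hug.1.norm.aemeasurable.add hvh.1.norm.aemeasurable).pow_const
        _).aestronglyMeasurable.mul ((hug.1.sub hvh.1).norm.pow 2)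
    · rw [Real.norm_of_nonneg (by positivity)]
      exact Pool.Agent.H38.HB.rpow_two_mul (by positivity) (norm_nonneg _) (norm_sub_le _ _)
  have hen : en p (fun z => g z - h z) ≤ N3 p g h := by
    unfold en N3
    refine integral_mono (Pool.Agent.H54.HB.Tools.int_rpow hp0 hw.2.1) hA fun z => ?_
    show ‖g z - h z‖ ^ p ≤ (‖g z‖ + ‖h z‖) ^ (p - 2) * ‖g z - h z‖ ^ 2
    have h1 : ‖g z - h z‖ ^ p = ‖g z - h z‖ ^ (p - 2) * ‖g z - h z‖ ^ 2 := by
      rcases eq_or_lt_of_le (norm_nonneg (g z - h z)) with h0 | h0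
      · rw [← h0, Real.zero_rpow hp0.ne']
        simp
      · rw [← Real.rpow_natCast _ 2, ← Real.rpow_add h0]
        congr 1
        push_cast
        ring
    rw [h1]
    exact mul_le_mul_of_nonneg_right
      (Real.rpow_le_rpow (norm_nonneg _) (norm_sub_le _ _) (by linarith)) (by positivity)
  refine ⟨hw, hA, (hSOB n hn p S hp1 hpn hS _ _ hw).trans hen, hen, ?_, ?_, ?_⟩
  · -- monotonicity
    obtain ⟨a1, a2, a3⟩ := hELQ n hn p S hp1 hpn hS u g hu hu0 _ _ hw
    obtain ⟨b1, b2, b3⟩ := hELQ n hn p S hp1 hpn hS v h hv hv0 _ _ hw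
    have hI : ∫ z, inner ℝ (‖g z‖ ^ (p - 2) • g z - ‖h z‖ ^ (p - 2) • h z) (g z - h z) =
        S * (q - 1) * ∫ z, bq q (u z) (v z) * (u z - v z) ^ 2 := by
      have e1 : ∫ z, inner ℝ (‖g z‖ ^ (p - 2) • g z - ‖h z‖ ^ (p - 2) • h z) (g z - h z) =
          (∫ z, inner ℝ (‖g z‖ ^ (p - 2) • g z) (g z - h z)) -
            ∫ z, inner ℝ (‖h z‖ ^ (p - 2) • h z) (g z - h z) := by
        rw [← integral_sub a1 b1]
        exact integral_congr_ae (Eventually.of_forall fun z => inner_sub_left _ _ _)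
      have e2 : ∫ z, (u z ^ (q - 1) * (u z - v z) - v z ^ (q - 1) * (u z - v z)) =
          (∫ z, u z ^ (q - 1) * (u z - v z)) - ∫ z, v z ^ (q - 1) * (u z - v z) :=
        integral_sub a2 b2
      have e3 : ∫ z, (u z ^ (q - 1) * (u z - v z) - v z ^ (q - 1) * (u z - v z)) =
          (q - 1) * ∫ z, bq q (u z) (v z) * (u z - v z) ^ 2 := by
        rw [← integral_const_mul]
        refine integral_congr_ae ?_
        filter_upwards [hu0, hv0] with z h1 h2
        obtain ⟨h3, -⟩ := hBQE.1 q (u z) (v z) hq h1 h2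
        linear_combination h3
      rw [e1, a3, b3, ← mul_sub, ← e2, e3]
      ring
    rw [← hI]
    unfold N3
    rw [← integral_const_mul]
    refine integral_mono (hA.const_mul _) ?_ fun z => ?_
    · refine (a1.sub b1).congr (Eventually.of_forall fun z => ?_)
      exact (inner_sub_left _ _ _).symm
    · have := hMNP n p hp2 (g z) (h z)
      show 2 ^ (2 - p) * ((‖g z‖ + ‖h z‖) ^ (p - 2) * ‖g z - h z‖ ^ 2) ≤ _
      rw [← mul_assoc]
      exact this
  · -- orthogonality
    have h1 : ∀ᵐ z, cq q (u z) (v z) * (u z - v z) = q⁻¹ * (|u z| ^ q - |v z| ^ q) := by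
      filter_upwards [hu0, hv0] with z h2 h3
      have h4 := (hBQE.1 q (u z) (v z) hq h2 h3).2.1
      rw [abs_of_nonneg h2, abs_of_nonneg h3, h4]
      field_simp
    have hiu : Integrable (fun z => |u z| ^ q) := Pool.Agent.H54.HB.Tools.int_rpow hq0 huu
    have hiv : Integrable (fun z => |v z| ^ q) := Pool.Agent.H54.HB.Tools.int_rpow hq0 hvv
    rw [integral_congr_ae h1, integral_const_mul, integral_sub hiu hiv]
    have h2 : ∫ z, |u z| ^ q = 1 := hu.2.1
    have h3 : ∫ z, |v z| ^ q = 1 := hv.2.1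
    rw [h2, h3]
    ring
  · -- centring
    intro i b
    have h1 : ∀ᵐ z, cq q (u z) (v z) * (u z - v z) * rz i b z =
        q⁻¹ * (|u z| ^ q * rz i b z - |v z| ^ q * rz i b z) := by
      filter_upwards [hu0, hv0] with z h2 h3
      have h4 := (hBQE.1 q (u z) (v z) hq h2 h3).2.1
      rw [← sub_mul, abs_of_nonneg h2, abs_of_nonneg h3, h4]
      field_simp
    have hrm : AEStronglyMeasurable (rz i b : H n → ℝ) volume :=
      (Pool.Agent.H54.HB.ZID.cd_rz i b).continuous.aestronglyMeasurable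
    have hri : ∀ w : H n → ℝ, MemLp w (ENNReal.ofReal q) →
        Integrable (fun z => |w z| ^ q * rz i b z) := by
      intro w hw
      refine (Pool.Agent.H54.HB.Tools.int_rpow hq0 hw).mul_bdd (c := 1) hrm
        (Eventually.of_forall fun z => ?_)
      exact Pool.Agent.H54.HB.NQ.abs_rz_le i b z
    rw [integral_congr_ae h1, integral_const_mul, integral_sub (hri u huu) (hri v hvv)]
    have h2 : ∫ z, |u z| ^ q * rz i b z = 0 := hcu i b
    have h3 : ∫ z, |v z| ^ q * rz i b z = 0 := hcv i b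
    rw [h2, h3]
    ring

end Pool.Agent.H79.HP
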